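import Pool.Agent.ISB.StmtsB

/-!
# Squad ISB, row GRP: the theorem on 2-groups
-/

set_option autoImplicit false

namespace Pool.Agent.ISB.H70

open scoped Classical commutatorElement

open Pool.Agent.ISB

attribute [local instance 100] LieRing.ofAssociativeRing LieAlgebra.ofAssociativeAlgebra

/-- the operator of degree `j` of an element of `gm P j` is in the `j`-th term -/
theorem grp_op (h3 : DopStmt) (P : Type) [Group P] (F : Type) [Field F] [CharP F 2] :
    ∀ j, ∀ x T, IsD P F j x T →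
      T ∈ itr (Submodule.span F (Rs P F)) (Submodule.span F (Rs P F)) j := by
  obtain ⟨d1, d2, d3, d4, d5, d6, d7, d8⟩ := h3 P F
  intro j
  induction j with
  | zero =>
    intro x T hT
    exact Submodule.subset_span ⟨0, x, hT⟩
  | succ j ih =>
    have key : ∀ y ∈ gm P (j + 1), ∃ U, IsD P F (j + 1) y U ∧
        U ∈ itr (Submodule.span F (Rs P F)) (Submodule.span F (Rs P F)) (j + 1) := by
      intro y hy
      have hy' : y ∈ Subgroup.closure {x | ∃ p ∈ (⊤ : Subgroup P).lowerCentralSeries j,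
          ∃ q ∈ (⊤ : Subgroup P), ⁅p, q⁆ = x} := hy
      induction hy' using Subgroup.closure_induction with
      | mem z hz =>
        obtain ⟨p, hp, q, hq, rfl⟩ := hz
        obtain ⟨Tp, hTp⟩ := d1 j p hp
        obtain ⟨Tq, hTq⟩ := d1 0 q hq
        have h := d8 j 0 p q Tp Tq hTp hTq
        refine ⟨⁅Tp, Tq⁆, h, ?_⟩
        exact Submodule.subset_span ⟨Tp, ih p Tp hTp, Tq,
          Submodule.subset_span ⟨0, q, hTq⟩, rfl⟩
      | one => exact ⟨0, d5 (j + 1), Submodule.zero_mem _⟩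
      | mul a b ha hb iha ihb =>
        obtain ⟨U, hU, hU'⟩ := iha ha
        obtain ⟨V, hV, hV'⟩ := ihb hb
        exact ⟨U + V, d3 _ _ _ _ _ hU hV, Submodule.add_mem _ hU' hV'⟩
      | inv a ha iha =>
        obtain ⟨U, hU, hU'⟩ := iha ha
        exact ⟨U, d4 _ _ _ hU, hU'⟩
    intro x T hT
    obtain ⟨U, hU, hU'⟩ := key x hT.1
    rw [d2 _ _ _ _ hT hU]
    exact hU'

/-- **Row GRP** -/
theorem grp (h1 : LieStmt) (h2 : GmcStmt) (h3 : DopStmt) (h4 : KasStmt) (h5 : FaiStmt)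
    (h6 : CvaStmt) (h7 : CvbStmt) : GrpStmt := by
  intro r n hr hodd
  refine ⟨hb (a0 r n) (fk n r 0) + 1, ?_⟩
  intro P _ _ hP κ S hκ hS hcov
  have : Fact (Nat.Prime 2) := ⟨Nat.prime_two⟩
  have hne : ((r : ℕ) : AlgebraicClosure (ZMod 2)) ≠ 0 := by
    intro h
    rw [CharP.cast_eq_zero_iff (AlgebraicClosure (ZMod 2)) 2] at h
    obtain ⟨k, hk⟩ := hodd
    omega
  have : NeZero ((r : ℕ) : AlgebraicClosure (ZMod 2)) := ⟨hne⟩
  obtain ⟨ζ, hζ⟩ := HasEnoughRootsOfUnity.exists_primitiveRoot (AlgebraicClosure (ZMod 2)) r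
  obtain ⟨⟨s, hs⟩, hK⟩ := h4 P (AlgebraicClosure (ZMod 2)) κ
  obtain ⟨k1, k2, k3⟩ := hK s hs
  have hAut : Aut (F := AlgebraicClosure (ZMod 2))
      (L := Module.End (AlgebraicClosure (ZMod 2)) (Dl P (AlgebraicClosure (ZMod 2))))
      r (cj P (AlgebraicClosure (ZMod 2)) s) ζ :=
    { pos := hr.pos
      prim := hζ
      ne := hne
      lie := k2
      pow := k3 r hκ }
  obtain ⟨c1, c2, c3, c4, c5, c6⟩ := h6 P (AlgebraicClosure (ZMod 2)) r n κ S s hκ hs hS hcov
  have hfix := h7 P (AlgebraicClosure (ZMod 2)) r κ s hodd hκ hs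
  have hCov : Cov (F := AlgebraicClosure (ZMod 2))
      (L := Module.End (AlgebraicClosure (ZMod 2)) (Dl P (AlgebraicClosure (ZMod 2)))) r n (cj P (AlgebraicClosure (ZMod 2)) s)
      (Rs P (AlgebraicClosure (ZMod 2)))
      (fun k => Hs P (AlgebraicClosure (ZMod 2)) (S.map (κ ^ k).toMonoidHom)) :=
    { brk := c1
      stb := c2
      cov := c3
      shf := c4
      per := c5
      nil := c6
      fix := hfix }
  have hL := h1 (AlgebraicClosure (ZMod 2))
    (Module.End (AlgebraicClosure (ZMod 2)) (Dl P (AlgebraicClosure (ZMod 2)))) r n _ ζ _ _ hr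
    hAut hCov
  refine h5 P (AlgebraicClosure (ZMod 2)) hP _ ?_
  intro x hx T hT
  have h := grp_op h3 P (AlgebraicClosure (ZMod 2)) _ x T hT
  rw [hL] at h
  exact (Submodule.mem_bot _).mp h

end Pool.Agent.ISB.H70
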